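import Pool.Agent.helper45.BR.Spec

set_option autoImplicit false

open Complex Metric Set Filter Topology MeasureTheory MPS Pool.Agent.helper98.ILF
  Pool.Agent.helper16.Multibrot

noncomputable section

namespace BR

/-- the terms of the series -/
def LMV_a (n : ℕ) (c : ℂ) (j : ℕ) (z : ℂ) : ℂ := 1 / mlt n (j + 1) c z

theorem LMV_fdbd (n : ℕ) (hn : 2 ≤ n) (w : ℂ) (hw : 4 ≤ ‖w‖) : 2 * ‖w‖ ≤ ‖fd n w‖ := by
  unfold fd
  rw [norm_mul, norm_pow, Complex.norm_natCast]
  have h1 : ‖w‖ ≤ ‖w‖ ^ (n - 1) := by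
    calc ‖w‖ = ‖w‖ ^ 1 := (pow_one _).symm
      _ ≤ ‖w‖ ^ (n - 1) := pow_le_pow_right₀ (by linarith) (by omega)
  have h2 : (2 : ℝ) ≤ n := by exact_mod_cast hn
  gcongr

theorem LMV_iter (n : ℕ) (c : ℂ) (hn : 2 ≤ n) (hc : ‖c‖ ≤ 2) (w : ℂ) (hw : 4 ≤ ‖w‖) (k : ℕ) :
    4 ≤ ‖(fc n c)^[k] w‖ :=
  hw.trans (le_iterate_of_large hn (by linarith) k)

theorem LMV_add (n : ℕ) (c : ℂ) (hp : ∀ k z, mlt n k c z = ∏ j ∈ Finset.range k, fd n ((fc n c)^[j] z))
    (k j : ℕ) (z : ℂ) : mlt n (k + j) c z = mlt n k c z * mlt n j c ((fc n c)^[k] z) := by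
  rw [hp, hp, hp, Finset.prod_range_add]
  congr 1
  apply Finset.prod_congr rfl
  intro i _
  rw [← Function.iterate_add_apply, add_comm]

theorem LMV_low (n : ℕ) (c : ℂ) (hn : 2 ≤ n) (hc : ‖c‖ ≤ 2)
    (hp : ∀ k z, mlt n k c z = ∏ j ∈ Finset.range k, fd n ((fc n c)^[j] z)) (w : ℂ) (hw : 4 ≤ ‖w‖) (j : ℕ) :
    2 * ‖w‖ * 8 ^ j ≤ ‖mlt n (j + 1) c w‖ := by
  induction j with
  | zero =>
    rw [hp, zero_add, Finset.prod_range_one, pow_zero, mul_one]
    exact LMV_fdbd n hn w hw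
  | succ j ih =>
    have h1 := LMV_add n c hp (j + 1) 1 w
    have h2 : mlt n 1 c ((fc n c)^[j + 1] w) = fd n ((fc n c)^[j + 1] w) := by
      rw [hp, Finset.prod_range_one]
      rfl
    rw [h1, h2, norm_mul, pow_succ, ← mul_assoc]
    have h3 := LMV_fdbd n hn _ (LMV_iter n c hn hc w hw (j + 1))
    have h4 := LMV_iter n c hn hc w hw (j + 1)
    exact mul_le_mul ih (by linarith) (by norm_num) (norm_nonneg _)

theorem LMV_abd (n : ℕ) (c : ℂ) (hn : 2 ≤ n) (hc : ‖c‖ ≤ 2)
    (hp : ∀ k z, mlt n k c z = ∏ j ∈ Finset.range k, fd n ((fc n c)^[j] z)) (w : ℂ) (hw : 4 ≤ ‖w‖) (j : ℕ) :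
    ‖LMV_a n c j w‖ ≤ 1 / (2 * ‖w‖) * (1 / 8) ^ j := by
  unfold LMV_a
  rw [norm_div, norm_one]
  have h := LMV_low n c hn hc hp w hw j
  have hw0 : 0 < ‖w‖ := by linarith
  calc 1 / ‖mlt n (j + 1) c w‖ ≤ 1 / (2 * ‖w‖ * 8 ^ j) := by
        apply one_div_le_one_div_of_le (by positivity) h
    _ = 1 / (2 * ‖w‖) * (1 / 8) ^ j := by
        rw [one_div_pow, one_div_mul_one_div]

theorem LMV_sumw (n : ℕ) (c : ℂ) (hn : 2 ≤ n) (hc : ‖c‖ ≤ 2)
    (hp : ∀ k z, mlt n k c z = ∏ j ∈ Finset.range k, fd n ((fc n c)^[j] z)) (w : ℂ) (hw : 4 ≤ ‖w‖) :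
    Summable (fun j => LMV_a n c j w) := by
  refine Summable.of_norm_bounded (g := fun j : ℕ => 1 / (2 * ‖w‖) * (1 / 8 : ℝ) ^ j) ?_
    (LMV_abd n c hn hc hp w hw)
  exact (summable_geometric_of_lt_one (by norm_num) (by norm_num)).mul_left _

theorem LMV_shift (n : ℕ) (c : ℂ)
    (hp : ∀ k z, mlt n k c z = ∏ j ∈ Finset.range k, fd n ((fc n c)^[j] z)) (k : ℕ) (z : ℂ) (j : ℕ) :
    LMV_a n c (j + k) z = 1 / mlt n k c z * LMV_a n c j ((fc n c)^[k] z) := by
  unfold LMV_a
  have h : j + k + 1 = k + (j + 1) := by ring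
  rw [h, LMV_add n c hp k (j + 1) z, one_div_mul_one_div]

theorem LMV_eq (n : ℕ) (c : ℂ)
    (hp : ∀ k z, mlt n k c z = ∏ j ∈ Finset.range k, fd n ((fc n c)^[j] z)) (k : ℕ) (z : ℂ)
    (hs : Summable (fun j => LMV_a n c j z)) :
    VV n c z = SN n c k z + 1 / mlt n k c z * VV n c ((fc n c)^[k] z) := by
  have h1 := hs.sum_add_tsum_nat_add k
  have h2 : ∑' j, LMV_a n c (j + k) z = 1 / mlt n k c z * ∑' j, LMV_a n c j ((fc n c)^[k] z) := by
    rw [← tsum_mul_left]
    congr 1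
    funext j
    exact LMV_shift n c hp k z j
  rw [h2] at h1
  unfold VV SN
  have e1 : ∑' j : ℕ, 1 / mlt n (j + 1) c z = ∑' j, LMV_a n c j z := rfl
  have e2 : ∑' j : ℕ, 1 / mlt n (j + 1) c ((fc n c)^[k] z) = ∑' j, LMV_a n c j ((fc n c)^[k] z) := rfl
  have e3 : ∑ j ∈ Finset.range k, 1 / mlt n (j + 1) c z = ∑ j ∈ Finset.range k, LMV_a n c j z := rfl
  rw [e1, e2, e3, ← h1]
  ring

theorem LMV_diffm (n : ℕ) (c : ℂ)
    (hp : ∀ k z, mlt n k c z = ∏ j ∈ Finset.range k, fd n ((fc n c)^[j] z)) (k : ℕ) :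
    Differentiable ℂ (fun z => mlt n k c z) := by
  have hf : Differentiable ℂ (fc n c) := by
    unfold fc
    fun_prop
  have hfd : Differentiable ℂ (fd n) := by
    unfold fd
    fun_prop
  have h : (fun z => mlt n k c z) = fun z => ∏ j ∈ Finset.range k, fd n ((fc n c)^[j] z) := by
    funext z
    exact hp k z
  rw [h]
  apply Differentiable.fun_finsetProd
  intro j _
  exact hfd.comp (hf.iterate j)

/-- **LMV** -/
theorem LMV (hBAS : BAS_stmt) (hMBB : MBB_stmt) (hMLN : MLN_stmt) : LMV_stmt := by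
  intro n c hn hcM
  have hc : ‖c‖ ≤ 2 := ((hMBB n c hn).1 hcM).1
  obtain ⟨-, -, -, hp, -⟩ := hBAS n c hn (by linarith)
  have hf : Differentiable ℂ (fc n c) := by
    unfold fc
    fun_prop
  have h1 : ∀ z ∉ filled n c, ∀ᶠ N in atTop, 4 ≤ ‖(fc n c)^[N] z‖ := by
    intro z hz
    obtain ⟨k₀, hk⟩ := exists_of_notMem_filled hn hz 4
    filter_upwards [eventually_ge_atTop k₀] with N hN
    exact (hk N hN).le
  have hne : ∀ z ∉ filled n c, ∀ j, mlt n j c z ≠ 0 := by
    intro z hz j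
    obtain ⟨N, hN, hjN⟩ := ((h1 z hz).and (eventually_ge_atTop j)).exists
    exact hMLN n N c z hn hcM hN j hjN
  have hsum : ∀ z ∉ filled n c, Summable (fun j => LMV_a n c j z) := by
    intro z hz
    obtain ⟨k, hk⟩ := (h1 z hz).exists
    rw [← summable_nat_add_iff k]
    have h : (fun j => LMV_a n c (j + k) z) =
        fun j => 1 / mlt n k c z * LMV_a n c j ((fc n c)^[k] z) := by
      funext j
      exact LMV_shift n c hp k z j
    rw [h]
    exact (LMV_sumw n c hn hc hp _ hk).mul_left _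
  refine ⟨h1, ?_, ?_, ?_, ?_⟩
  · intro z hz
    exact ((hsum z hz).hasSum.tendsto_sum_nat).neg
  · intro z hz
    have h := LMV_eq n c hp 1 z (hsum z hz)
    have h2 : mlt n 1 c z = fd n z := by
      rw [hp, Finset.prod_range_one]
      rfl
    have h3 : fd n z ≠ 0 := by
      rw [← h2]
      exact hne z hz 1
    have h4 : SN n c 1 z = -(1 / fd n z) := by
      unfold SN
      rw [Finset.sum_range_one, zero_add, h2]
    have h5 : (fc n c)^[1] z = z ^ n + c := rfl
    rw [h4, h2, h5] at h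
    rw [h]
    field_simp
    ring
  · have hbig : DifferentiableOn ℂ (VV n c) {w : ℂ | 4 < ‖w‖} := by
      have hopen : IsOpen {w : ℂ | 4 < ‖w‖} := isOpen_lt continuous_const continuous_norm
      have h : DifferentiableOn ℂ (fun w => ∑' j, LMV_a n c j w) {w : ℂ | 4 < ‖w‖} := by
        apply differentiableOn_tsum_of_summable_norm (u := fun j : ℕ => (1 / 8 : ℝ) ^ j)
          (summable_geometric_of_lt_one (by norm_num) (by norm_num))
        · intro j w hw
          have hw4 : 4 ≤ ‖w‖ := le_of_lt hw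
          have h0 : mlt n (j + 1) c w ≠ 0 := by
            intro h0
            have h2 := LMV_low n c hn hc hp w hw4 j
            rw [h0, norm_zero] at h2
            have : 0 < 2 * ‖w‖ * 8 ^ j := by positivity
            linarith
          exact ((differentiableAt_const _).div ((LMV_diffm n c hp (j + 1)) w) h0).differentiableWithinAt
        · exact hopen
        · intro j w hw
          have hw4 : 4 ≤ ‖w‖ := le_of_lt hw
          refine (LMV_abd n c hn hc hp w hw4 j).trans ?_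
          have h3 : 1 / (2 * ‖w‖) ≤ 1 := by
            rw [div_le_one (by positivity)]
            linarith
          have h4 : (0 : ℝ) ≤ (1 / 8) ^ j := by positivity
          nlinarith
      exact h.neg
    intro z hz
    obtain ⟨k₀, hk⟩ := exists_of_notMem_filled hn hz 4
    have hk4 : 4 < ‖(fc n c)^[k₀] z‖ := hk k₀ le_rfl
    have hfk : Differentiable ℂ ((fc n c)^[k₀]) := hf.iterate k₀
    have hev : ∀ᶠ y in 𝓝 z, VV n c y =
        SN n c k₀ y + 1 / mlt n k₀ c y * VV n c ((fc n c)^[k₀] y) := by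
      have hop : IsOpen (filled n c)ᶜ := (isClosed_filled n c).isOpen_compl
      filter_upwards [hop.mem_nhds hz] with y hy
      exact LMV_eq n c hp k₀ y (hsum y hy)
    have hd : DifferentiableAt ℂ
        (fun y => SN n c k₀ y + 1 / mlt n k₀ c y * VV n c ((fc n c)^[k₀] y)) z := by
      apply DifferentiableAt.add
      · unfold SN
        apply DifferentiableAt.neg
        apply DifferentiableAt.fun_sum
        intro j _
        exact (differentiableAt_const _).div ((LMV_diffm n c hp (j + 1)) z) (hne z hz (j + 1))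
      · apply DifferentiableAt.mul
        · exact (differentiableAt_const _).div ((LMV_diffm n c hp k₀) z) (hne z hz k₀)
        · have hop : IsOpen {w : ℂ | 4 < ‖w‖} := isOpen_lt continuous_const continuous_norm
          exact (hbig.differentiableAt (hop.mem_nhds hk4)).comp z (hfk z)
    exact (hd.congr_of_eventuallyEq hev).differentiableWithinAt
  · intro z hz
    have hs := LMV_sumw n c hn hc hp z hz
    have hz0 : 0 < ‖z‖ := by linarith
    have hg : Summable (fun j : ℕ => 1 / (2 * ‖z‖) * (1 / 8 : ℝ) ^ j) :=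
      (summable_geometric_of_lt_one (by norm_num) (by norm_num)).mul_left _
    have h1 : ‖∑' j, LMV_a n c j z‖ ≤ ∑' j : ℕ, 1 / (2 * ‖z‖) * (1 / 8 : ℝ) ^ j :=
      tsum_of_norm_bounded hg.hasSum (LMV_abd n c hn hc hp z hz)
    rw [tsum_mul_left, tsum_geometric_of_lt_one (by norm_num) (by norm_num)] at h1
    have h2 : ‖VV n c z‖ = ‖∑' j, LMV_a n c j z‖ := by
      unfold VV
      rw [norm_neg]
      rfl
    rw [h2]
    refine h1.trans ?_
    rw [div_mul_eq_mul_div, one_mul, div_le_div_iff₀ (by positivity) hz0]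
    nlinarith

end BR
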